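import Pool.Agent.TwoWell.KDefs

/-!
# Affine `k`-phase problems in the plane: `G`-closure and lamination closure

Phases are symmetric positive definite maps `K_j` on `S_n ⊕ ℝ` (`S_n` = real `2 × n` matrices), with
the energies `W_j(F) = (F, 1) · K_j (F, 1)`.
-/

set_option autoImplicit false
open MeasureTheory Matrix

namespace Pool.Agent.Y308.AK

open GClosure

/-- indices of the space `S_n ⊕ ℝ` -/
abbrev Jx (n : ℕ) := Ix n ⊕ Unit

/-- linear maps on `S_n ⊕ ℝ`, as square matrices -/
abbrev ATens (n : ℕ) := Matrix (Jx n) (Jx n) ℝ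

/-- the vector `(F, s)` -/
def vec {n : ℕ} (F : Mt n) (s : ℝ) : Jx n → ℝ := Sum.elim F (fun _ => s)

/-- the energy `W(F) = (F, 1) · K (F, 1)` -/
def en {n : ℕ} (K : ATens n) (F : Mt n) : ℝ := vec F 1 ⬝ᵥ (K *ᵥ vec F 1)

/-- `Ks` is the effective tensor of the partition with the phase function `φ`: it is symmetric and
`(F, 1) · Ks (F, 1) = inf_u ⟨W_{φ(x)} (F + ∇u)⟩` for all `F` (`u` smooth and periodic) -/
def IsEffA {n k : ℕ} (K : Fin k → ATens n) (φ : (Fin 2 → ℝ) → Fin k) (Ks : ATens n) : Prop :=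
  Ks.IsSymm ∧ ∀ F : Mt n, IsGLB {r : ℝ | ∃ u : (Fin 2 → ℝ) → (Fin n → ℝ), IsPot u ∧
    r = ∫ x in cell, en (K (φ x)) (F + grad u x)} (en Ks F)

/-- the closure of the set of all effective tensors of the phases `K 0, ..., K (k - 1)`
(all partitions) -/
def GA {n k : ℕ} (K : Fin k → ATens n) : Set (ATens n) :=
  closure {Ks | ∃ φ : (Fin 2 → ℝ) → Fin k, IsPhase φ ∧ IsEffA K φ Ks}

/-- the rank-one matrix with the entries `v_i b_j` -/
def rk {n : ℕ} (v : Fin 2 → ℝ) (b : Fin n → ℝ) : Mt n := fun p => v p.1 * b p.2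

/-- `C` is the effective tensor of a layering, with normal `v`, of the materials `A` and `B` in
proportions `t`, `1 - t`: it is symmetric and `(F, 1) · C (F, 1)` is the infimum of the average
energy over the fields which are constant in the layers, have average `F` and a rank-one jump
with normal `v` -/
def IsLayerA {n : ℕ} (t : ℝ) (v : Fin 2 → ℝ) (A B C : ATens n) : Prop :=
  C.IsSymm ∧ ∀ F : Mt n, IsGLB (Set.range fun b : Fin n → ℝ =>
    t * en A (F + (1 - t) • rk v b) + (1 - t) * en B (F + (-t) • rk v b)) (en C F)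

/-- the effective tensors of multiple-rank laminates of the phases -/
inductive IsLamA {n k : ℕ} (K : Fin k → ATens n) : ATens n → Prop
  | pure (i : Fin k) : IsLamA K (K i)
  | layer (t : ℝ) (v : Fin 2 → ℝ) (A B C : ATens n) (hA : IsLamA K A) (hB : IsLamA K B)
      (ht0 : 0 ≤ t) (ht1 : t ≤ 1) (hv : v ≠ 0) (h : IsLayerA t v A B C) : IsLamA K C

/-- the lamination closure -/
def GLA {n k : ℕ} (K : Fin k → ATens n) : Set (ATens n) := closure {C | IsLamA K C}

/-- the least `n ≥ 1` for which some `k` symmetric positive definite affine phases on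
`S_n ⊕ ℝ` have a lamination closure different from the `G`-closure (infinite if there is none) -/
noncomputable def nK (k : ℕ) : ℕ∞ :=
  sInf {m | ∃ n : ℕ, 1 ≤ n ∧ m = (n : ℕ∞) ∧
    ∃ K : Fin k → ATens n, (∀ i, (K i).PosDef) ∧ GA K ≠ GLA K}

theorem en_continuous {n : ℕ} (F : Mt n) : Continuous fun C : ATens n => en C F := by
  unfold en
  exact Continuous.dotProduct continuous_const (Continuous.matrix_mulVec continuous_id continuous_const)

theorem lam_lower {n k : ℕ} (K : Fin k → ATens n) (g : Mt n → ℝ)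
    (hg : ∀ (E : Mt n) (a : Fin 2 → ℝ) (b : Fin n → ℝ),
      ConvexOn ℝ Set.univ (fun t : ℝ => g (E + t • rk a b)))
    (hK : ∀ i F, g F ≤ en (K i) F) (C : ATens n) (hC : IsLamA K C) : ∀ F, g F ≤ en C F := by
  induction hC with
  | pure i => exact hK i
  | layer t v A B C hA hB ht0 ht1 hv h ihA ihB =>
    intro F
    refine (h.2 F).2 ?_
    rintro r ⟨b, rfl⟩
    have h1 := (hg F v b).2 (Set.mem_univ (1 - t)) (Set.mem_univ (-t)) ht0
      (by linarith : (0 : ℝ) ≤ 1 - t) (by ring)
    simp only [smul_eq_mul] at h1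
    have e : t * (1 - t) + (1 - t) * -t = 0 := by ring
    rw [e, zero_smul, add_zero] at h1
    refine h1.trans (add_le_add ?_ ?_)
    · exact mul_le_mul_of_nonneg_left (ihA _) ht0
    · exact mul_le_mul_of_nonneg_left (ihB _) (by linarith)

theorem closure_lower {n k : ℕ} (K : Fin k → ATens n) (g : Mt n → ℝ)
    (hg : ∀ (E : Mt n) (a : Fin 2 → ℝ) (b : Fin n → ℝ),
      ConvexOn ℝ Set.univ (fun t : ℝ => g (E + t • rk a b)))
    (hK : ∀ i F, g F ≤ en (K i) F) (C : ATens n) (hC : C ∈ GLA K) (F : Mt n) : g F ≤ en C F := by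
  have hcl : IsClosed {C : ATens n | g F ≤ en C F} := isClosed_le continuous_const (en_continuous F)
  exact closure_minimal (fun C hC => lam_lower K g hg hK C hC F) hcl hC

end Pool.Agent.Y308.AK
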