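import Pool.Agent.Y308.AK.Defs
import Pool.Agent.TwoWell.JH4

set_option autoImplicit false
open MeasureTheory Matrix

namespace Pool.Agent.Y308.AK

open GClosure

variable {ι : Type} [Fintype ι]

/-- the Hilbert space -/
abbrev HA (ι : Type) [Fintype ι] :=
  PiLp 2 (fun _ : ι => Lp ℝ 2 (volume.restrict cell : Measure (Fin 2 → ℝ)))

/-- the function `F` represents the element `h` -/
def RepA (h : HA ι) (F : (Fin 2 → ℝ) → ι → ℝ) : Prop :=
  ∀ p, (h p : (Fin 2 → ℝ) → ℝ) =ᵐ[volume.restrict cell] fun x => F x p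

theorem RepA.memLp {h : HA ι} {F : (Fin 2 → ℝ) → ι → ℝ} (hr : RepA h F) (p : ι) :
    MemLp (fun x => F x p) 2 (volume.restrict cell) :=
  (memLp_congr_ae (hr p)).1 (Lp.memLp (h p))

theorem exists_repA (F : (Fin 2 → ℝ) → ι → ℝ)
    (hF : ∀ p, MemLp (fun x => F x p) 2 (volume.restrict cell)) : ∃ h : HA ι, RepA h F :=
  ⟨WithLp.toLp 2 (fun p => (hF p).toLp _), fun p => (hF p).coeFn_toLp⟩

theorem RepA.add {h k : HA ι} {F G : (Fin 2 → ℝ) → ι → ℝ} (hf : RepA h F) (hg : RepA k G) :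
    RepA (h + k) (fun x => F x + G x) := by
  intro p
  have e : ((h + k) p : Lp ℝ 2 (volume.restrict cell : Measure (Fin 2 → ℝ))) = h p + k p := rfl
  rw [e]
  filter_upwards [Lp.coeFn_add (h p) (k p), hf p, hg p] with x h1 h2 h3
  rw [h1, Pi.add_apply, h2, h3]
  rfl

theorem RepA.smul {h : HA ι} {F : (Fin 2 → ℝ) → ι → ℝ} (c : ℝ) (hf : RepA h F) :
    RepA (c • h) (fun x => c • F x) := by
  intro p
  have e : ((c • h) p : Lp ℝ 2 (volume.restrict cell : Measure (Fin 2 → ℝ))) = c • h p := rfl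
  rw [e]
  filter_upwards [Lp.coeFn_smul c (h p), hf p] with x h1 h2
  rw [h1, Pi.smul_apply, h2]
  rfl

theorem repA_zero : RepA (0 : HA ι) (fun _ => 0) := by
  intro p
  exact Lp.coeFn_zero ℝ 2 _

theorem repA_sum {κ : Type*} (s : Finset κ) (h : κ → HA ι)
    (F : κ → (Fin 2 → ℝ) → ι → ℝ) (hr : ∀ i ∈ s, RepA (h i) (F i)) :
    RepA (∑ i ∈ s, h i) (fun x => ∑ i ∈ s, F i x) := by
  classical
  induction s using Finset.induction_on with
  | empty => simpa using repA_zero
  | insert a s ha ih =>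
    rw [Finset.sum_insert ha]
    have := (hr a (Finset.mem_insert_self _ _)).add
      (ih fun i hi => hr i (Finset.mem_insert_of_mem hi))
    convert this using 2
    rw [Finset.sum_insert ha]

theorem inner_repA {h k : HA ι} {F G : (Fin 2 → ℝ) → ι → ℝ} (hf : RepA h F)
    (hg : RepA k G) : inner ℝ h k = ∫ x in cell, F x ⬝ᵥ G x := by
  rw [PiLp.inner_apply]
  have h1 : ∀ p, inner ℝ (h p) (k p) = ∫ x in cell, F x p * G x p := by
    intro p
    rw [L2.inner_def]
    refine integral_congr_ae ?_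
    filter_upwards [hf p, hg p] with x h2 h3
    rw [h2, h3]
    simp [mul_comm]
  simp_rw [h1]
  rw [← integral_finsetSum]
  · rfl
  · intro p _
    exact (hf.memLp p).integrable_mul (hg.memLp p)

theorem phase_memLp {k : ℕ} (B : Fin k → Matrix ι ι ℝ) (φ : (Fin 2 → ℝ) → Fin k)
    (hφ : Measurable φ) (F : (Fin 2 → ℝ) → ι → ℝ)
    (hF : ∀ p, MemLp (fun x => F x p) 2 (volume.restrict cell)) (p : ι) :
    MemLp (fun x => (B (φ x) *ᵥ F x) p) 2 (volume.restrict cell) := by
  have h1 : (fun x => (B (φ x) *ᵥ F x) p) = fun x => ∑ q, B (φ x) p q * F x q := rfl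
  rw [h1]
  refine memLp_finsetSum _ fun q _ => ?_
  have hm : Measurable fun x => B (φ x) p q :=
    (measurable_of_finite (fun i : Fin k => B i p q)).comp hφ
  refine MemLp.of_le_mul (c := ∑ i, |B i p q|) (hF q)
    (hm.aestronglyMeasurable.mul (hF q).aestronglyMeasurable)
    (Filter.Eventually.of_forall fun x => ?_)
  rw [norm_mul]
  refine mul_le_mul_of_nonneg_right ?_ (norm_nonneg _)
  exact Finset.single_le_sum (f := fun i => |B i p q|) (fun i _ => abs_nonneg _)
    (Finset.mem_univ (φ x))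

theorem quad_eqA (B : Matrix ι ι ℝ) (F G : ι → ℝ) :
    ((Bᵀ * B) *ᵥ F) ⬝ᵥ G = (B *ᵥ F) ⬝ᵥ (B *ᵥ G) := by
  rw [dotProduct_mulVec, ← mulVec_mulVec, mulVec_transpose]

theorem vec_add {n : ℕ} (F G : Mt n) (s t : ℝ) : vec (F + G) (s + t) = vec F s + vec G t := by
  funext p
  rcases p with p | p <;> rfl

theorem vec_smul {n : ℕ} (c : ℝ) (F : Mt n) (s : ℝ) : vec (c • F) (c * s) = c • vec F s := by
  funext p
  rcases p with p | p <;> rfl

theorem vec_memLp {n : ℕ} {u : (Fin 2 → ℝ) → (Fin n → ℝ)} (hu : IsPot u) (p : Jx n) :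
    MemLp (fun x => vec (grad u x) 0 p) 2 (volume.restrict cell) := by
  rcases p with p | p
  · exact cont_memLp (grad_cont hu p)
  · exact memLp_const _

/-- the subspace of the `B (∇ u, 0)` -/
def UA {n k : ℕ} (B : Fin k → ATens n) (φ : (Fin 2 → ℝ) → Fin k) : Submodule ℝ (HA (Jx n)) where
  carrier := {h | ∃ u : (Fin 2 → ℝ) → (Fin n → ℝ), IsPot u ∧
    RepA h (fun x => B (φ x) *ᵥ vec (grad u x) 0)}
  add_mem' := by
    rintro h k ⟨u, hu, hr⟩ ⟨v, hv, hs⟩
    refine ⟨_, pot_add hu hv, ?_⟩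
    have := hr.add hs
    convert this using 2 with x
    rw [grad_add' hu hv, ← mulVec_add, ← vec_add, add_zero]
  zero_mem' := by
    refine ⟨fun _ => 0, pot_zero, ?_⟩
    have e : (fun x : Fin 2 → ℝ => B (φ x) *ᵥ vec (grad (fun _ => (0 : Fin n → ℝ)) x) 0) =
        fun _ => 0 := by
      funext x
      have h0 : vec (0 : Mt n) 0 = 0 := by
        funext p
        rcases p with p | p <;> rfl
      rw [grad_zero', h0, mulVec_zero]
    rw [e]
    exact repA_zero
  smul_mem' := by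
    rintro c h ⟨u, hu, hr⟩
    refine ⟨_, pot_smul hu c, ?_⟩
    have := hr.smul c
    convert this using 2 with x
    rw [grad_smul' hu, ← mulVec_smul, ← vec_smul, mul_zero]

theorem sqA {ι : Type} [Fintype ι] [DecidableEq ι] (L : Matrix ι ι ℝ) (h : L.PosDef) :
    ∃ B : Matrix ι ι ℝ, L = Bᵀ * B := by
  open scoped MatrixOrder in
  have h0 : 0 ≤ L := h.posSemidef.nonneg
  open scoped MatrixOrder in
  have h1 : CFC.sqrt L * CFC.sqrt L = L := CFC.sqrt_mul_sqrt_self L h0
  open scoped MatrixOrder in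
  have h2 : (CFC.sqrt L)ᴴ = CFC.sqrt L := (CFC.sqrt_nonneg L).posSemidef.isHermitian
  refine ⟨CFC.sqrt L, ?_⟩
  rw [← conjTranspose_eq_transpose_of_trivial, h2, h1]

theorem exists_effA {n k : ℕ} (K : Fin k → ATens n) (hK : ∀ i, (K i).PosDef)
    (φ : (Fin 2 → ℝ) → Fin k) (hφ : Measurable φ) : ∃ Ks : ATens n, IsEffA K φ Ks := by
  classical
  have hBex : ∀ i, ∃ B : ATens n, K i = Bᵀ * B := by
    intro i
    exact sqA (K i) (hK i)
  choose B hB using hBex
  have hq : ∀ i (F G : Jx n → ℝ), (K i *ᵥ F) ⬝ᵥ G = (B i *ᵥ F) ⬝ᵥ (B i *ᵥ G) := by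
    intro i F G
    rw [hB, quad_eqA]
  have hcex : ∀ q : Jx n, ∃ c : HA (Jx n),
      RepA c (fun x => B (φ x) *ᵥ (Pi.single q (1 : ℝ) : Jx n → ℝ)) := fun q =>
    exists_repA _ (phase_memLp B φ hφ _ fun p => memLp_const _)
  choose c hc using hcex
  set hE : (Jx n → ℝ) → HA (Jx n) := fun E0 => ∑ q, E0 q • c q with hhE
  have hER : ∀ E0, RepA (hE E0) (fun x => B (φ x) *ᵥ E0) := by
    intro E0
    have := repA_sum Finset.univ (fun q => E0 q • c q)
      (fun q x => E0 q • (B (φ x) *ᵥ (Pi.single q (1 : ℝ) : Jx n → ℝ)))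
      (fun q _ => (hc q).smul (E0 q))
    convert this using 2 with x
    simp_rw [← mulVec_smul]
    rw [← mulVec_sum]
    congr 1
    funext p
    simp [Finset.sum_apply, Pi.single_apply]
  set U := UA B φ with hU
  set T := U.topologicalClosure with hT
  have : CompleteSpace T := (Submodule.isClosed_topologicalClosure U).completeSpace_coe
  have hUT : ∀ h ∈ U, h ∈ T := fun h hh => U.le_topologicalClosure hh
  set W : (Jx n → ℝ) → HA (Jx n) := fun E0 => hE E0 - T.starProjection (hE E0) with hW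
  have hWo : ∀ E0, ∀ k ∈ T, inner ℝ (W E0) k = 0 := fun E0 k hk =>
    Submodule.starProjection_inner_eq_zero _ _ hk
  have hgrad : ∀ u : (Fin 2 → ℝ) → (Fin n → ℝ), IsPot u → ∃ k ∈ U,
      RepA k (fun x => B (φ x) *ᵥ vec (grad u x) 0) := by
    intro u hu
    obtain ⟨k, hk⟩ := exists_repA (fun x => B (φ x) *ᵥ vec (grad u x) 0)
      (phase_memLp B φ hφ _ (vec_memLp hu))
    exact ⟨k, ⟨u, hu, hk⟩, hk⟩
  have hint : ∀ (F : Mt n) (u : (Fin 2 → ℝ) → (Fin n → ℝ)) (k : HA (Jx n)), IsPot u →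
      RepA k (fun x => B (φ x) *ᵥ vec (grad u x) 0) →
      ∫ x in cell, en (K (φ x)) (F + grad u x) = ‖hE (vec F 1) + k‖ ^ 2 := by
    intro F u k hu hk
    have hr := (hER (vec F 1)).add hk
    rw [← real_inner_self_eq_norm_sq, inner_repA hr hr]
    refine integral_congr_ae (Filter.Eventually.of_forall fun x => ?_)
    show en (K (φ x)) (F + grad u x) = _
    unfold en
    have e : vec (F + grad u x) 1 = vec F 1 + vec (grad u x) 0 := by
      rw [← vec_add, add_zero]
    rw [e, dotProduct_comm, hq, mulVec_add]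
  set Ks : ATens n := Matrix.of fun p q =>
    inner ℝ (W (Pi.single p (1 : ℝ))) (W (Pi.single q (1 : ℝ))) with hKs
  have hsingle : ∀ q, hE (Pi.single q (1 : ℝ)) = c q := by
    intro q
    simp only [hhE, Pi.single_apply]
    simp
  have hWlin : ∀ E0, W E0 = ∑ q, E0 q • W (Pi.single q (1 : ℝ)) := by
    intro E0
    simp only [hW, hsingle]
    have : hE E0 = ∑ q, E0 q • c q := rfl
    rw [this, map_sum]
    simp only [map_smul, smul_sub, Finset.sum_sub_distrib]
  have hKsE : ∀ E0 : Jx n → ℝ, E0 ⬝ᵥ (Ks *ᵥ E0) = ‖W E0‖ ^ 2 := by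
    intro E0
    rw [← real_inner_self_eq_norm_sq]
    nth_rewrite 1 [hWlin E0]
    nth_rewrite 1 [hWlin E0]
    rw [sum_inner]
    simp only [dotProduct, mulVec, hKs, Matrix.of_apply, inner_smul_left, inner_sum,
      inner_smul_right]
    refine Finset.sum_congr rfl fun p _ => ?_
    rw [Finset.mul_sum]
    refine Finset.sum_congr rfl fun q _ => ?_
    simp only [conj_trivial]
    ring
  refine ⟨Ks, ?_, fun F => ⟨?_, ?_⟩⟩
  · ext p q
    simp only [hKs, transpose_apply, Matrix.of_apply]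
    exact real_inner_comm _ _
  · rintro r ⟨u, hu, rfl⟩
    obtain ⟨k, hkU, hkr⟩ := hgrad u hu
    rw [hint F u k hu hkr]
    unfold en
    rw [hKsE]
    have h7 : hE (vec F 1) + k = W (vec F 1) + (T.starProjection (hE (vec F 1)) + k) := by
      simp only [hW]
      abel
    have hmem : T.starProjection (hE (vec F 1)) + k ∈ T :=
      T.add_mem (Submodule.starProjection_apply_mem _ _) (hUT k hkU)
    have h8 := hWo (vec F 1) _ hmem
    rw [h7, norm_add_sq_real, h8]
    nlinarith [sq_nonneg ‖T.starProjection (hE (vec F 1)) + k‖]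
  · intro r hr
    unfold en
    rw [hKsE]
    have hcl : IsClosed {k : HA (Jx n) | r ≤ ‖hE (vec F 1) + k‖ ^ 2} :=
      isClosed_le continuous_const (by fun_prop)
    have hsub : (U : Set (HA (Jx n))) ⊆ {k : HA (Jx n) | r ≤ ‖hE (vec F 1) + k‖ ^ 2} := by
      rintro k ⟨u, hu, hku⟩
      show r ≤ ‖hE (vec F 1) + k‖ ^ 2
      rw [← hint F u k hu hku]
      exact hr ⟨u, hu, rfl⟩
    have hmem : -(T.starProjection (hE (vec F 1))) ∈ closure (U : Set (HA (Jx n))) :=
      T.neg_mem (Submodule.starProjection_apply_mem _ _)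
    have h9 := closure_minimal hsub hcl hmem
    have h10 : hE (vec F 1) + -(T.starProjection (hE (vec F 1))) = W (vec F 1) := by
      simp only [hW]
      abel
    have h11 : r ≤ ‖hE (vec F 1) + -(T.starProjection (hE (vec F 1)))‖ ^ 2 := h9
    rwa [h10] at h11

end Pool.Agent.Y308.AK
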