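import Pool.Agent.Y308.AK.Well
import Pool.Agent.Y308.AK.Eff
import Pool.Agent.TwoWell.QSide

set_option autoImplicit false
open MeasureTheory Matrix

namespace Pool.Agent.Y308.AK

open GClosure TwoWell

theorem Mx_line (F : Mt 11) (a : Fin 2 → ℝ) (b : Fin 11 → ℝ) (t : ℝ) :
    Mx (F + t • rk a b) = Mx F + t • Matrix.vecMulVec a b := by
  ext i j
  simp [Mx, rk, Matrix.vecMulVec_apply]

theorem en_add_smul_one {n : ℕ} (M : ATens n) (c : ℝ) (F : Mt n) :
    en (M + c • (1 : ATens n)) F = en M F + c * (vec F 1 ⬝ᵥ vec F 1) := by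
  unfold en
  rw [Matrix.add_mulVec, dotProduct_add, Matrix.smul_mulVec, dotProduct_smul, Matrix.one_mulVec,
    smul_eq_mul]

theorem Fst_ne : Fst ≠ 0 := by
  intro h
  have h1 := congrFun (congrFun h 0) 3
  simp [Fst, pstar, nx] at h1

/-- the base point -/
noncomputable def F00 : Mt 11 := fun p => F0m p.1 p.2

theorem Mx_F00 : Mx F00 = F0m := rfl

theorem k_phase_gapA (k : ℕ) (hk : 2 ≤ k) :
    ∃ K : Fin k → ATens 11, Function.Injective K ∧ (∀ i, (K i).PosDef) ∧
      ∃ Ks : ATens 11, Ks ∈ GA K ∧ Ks ∉ GLA K := by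
  classical
  obtain ⟨KA, KB, hKA, hKB, hconv⟩ := GG_convexOn
  obtain ⟨k', K', hk', hK', hle⟩ := GG_le KA KB
  obtain ⟨L1, sym1, pd1, eq1⟩ := exists_well k' K' hk' hK' 1 (Or.inl rfl)
  obtain ⟨L2, sym2, pd2, eq2⟩ := exists_well k' K' hk' hK' (-1) (Or.inr rfl)
  obtain ⟨u, hu, hper, hint⟩ := Qside k' K' hk' hK'
  obtain ⟨M1, pM1, e1⟩ := exists_tensorA L1 sym1 pd1 ((1 : ℝ) • Fst)
  obtain ⟨M2, pM2, e2⟩ := exists_tensorA L2 sym2 pd2 ((-1 : ℝ) • Fst)
  let g : Mt 11 → ℝ := fun F => GG KA KB (pp (Mx F)) (ss (Mx F))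
  have hg1 : ∀ F, g F ≤ en M1 F := by
    intro F; rw [e1 F, eq1]; exact hle 1 (Or.inl rfl) _ _
  have hg2 : ∀ F, g F ≤ en M2 F := by
    intro F; rw [e2 F, eq2]; exact hle (-1) (Or.inr rfl) _ _
  have hgc : ∀ (E : Mt 11) (a : Fin 2 → ℝ) (b : Fin 11 → ℝ),
      ConvexOn ℝ Set.univ (fun t : ℝ => g (E + t • rk a b)) := by
    intro E a b
    have h := hconv (pp (Mx E)) (ss (Mx E)) _ _ (JM1b.R1_vecMulVec a b)
    refine h.congr fun t _ => ?_
    show _ = GG KA KB (pp (Mx (E + t • rk a b))) (ss (Mx (E + t • rk a b)))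
    rw [Mx_line, pp_add_smul, ss_add_smul]
  -- the phases
  let K : Fin k → ATens 11 := fun i =>
    if (i : ℕ) = 0 then M1 else M2 + ((i : ℕ) - 1 : ℝ) • (1 : ATens 11)
  have hK0 : ∀ i : Fin k, (i : ℕ) = 0 → K i = M1 := fun i hi => by simp [K, hi]
  have hKi : ∀ i : Fin k, (i : ℕ) ≠ 0 → K i = M2 + ((i : ℕ) - 1 : ℝ) • (1 : ATens 11) :=
    fun i hi => by simp [K, hi]
  have hci : ∀ i : Fin k, (i : ℕ) ≠ 0 → (0 : ℝ) ≤ ((i : ℕ) - 1 : ℝ) := by
    intro i hi
    have : 1 ≤ (i : ℕ) := Nat.one_le_iff_ne_zero.2 hi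
    have : (1 : ℝ) ≤ (i : ℕ) := by exact_mod_cast this
    linarith
  have hKpd : ∀ i, (K i).PosDef := by
    intro i
    by_cases hi : (i : ℕ) = 0
    · rw [hK0 i hi]; exact pM1
    · rw [hKi i hi]
      exact pM2.add_posSemidef (Matrix.PosSemidef.one.smul (hci i hi))
  have hnn : ∀ F : Mt 11, 0 ≤ vec F 1 ⬝ᵥ vec F 1 := by
    intro F
    exact Finset.sum_nonneg fun p _ => mul_self_nonneg _
  have hgK : ∀ i F, g F ≤ en (K i) F := by
    intro i F
    by_cases hi : (i : ℕ) = 0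
    · rw [hK0 i hi]; exact hg1 F
    · rw [hKi i hi, en_add_smul_one]
      have := hg2 F
      have := mul_nonneg (hci i hi) (hnn F)
      linarith
  let i0 : Fin k := ⟨0, by omega⟩
  let i1 : Fin k := ⟨1, by omega⟩
  have hKi0 : K i0 = M1 := hK0 i0 rfl
  have hKi1 : K i1 = M2 := by
    rw [hKi i1 (by simp [i1])]
    simp [i1]
  -- the two energies along the test field
  let Fx : (Fin 2 → ℝ) → Matrix (Fin 2) (Fin 11) ℝ := fun x =>
    F0m + Matrix.of (fun (i : Fin 2) (c : Fin 11) => fderiv ℝ u x (Pi.single i (1 : ℝ)) c)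
  let W1 : (Fin 2 → ℝ) → ℝ := fun x => Wv k' K' 1 (pp (Fx x)) (ss (Fx x))
  let W2 : (Fin 2 → ℝ) → ℝ := fun x => Wv k' K' (-1) (pp (Fx x)) (ss (Fx x))
  have cF : Continuous Fx := by
    refine continuous_const.add (continuous_matrix ?_)
    intro i j
    have h1 : Continuous (fderiv ℝ u) := hu.continuous_fderiv (by norm_num)
    have h2 : Continuous (fun x => fderiv ℝ u x (Pi.single i (1 : ℝ))) := h1.clm_apply continuous_const
    exact (continuous_apply j).comp h2
  have cTr : ∀ (L : Matrix (Fin 2) (Fin 11) ℝ →ₗ[ℝ] Matrix (Fin 2) (Fin 11) ℝ)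
      (X : Matrix (Fin 2) (Fin 11) ℝ),
      Continuous (fun H => Matrix.trace ((H - X) * (L (H - X))ᵀ) + 1 / 100) := by
    intro L X
    have hL : Continuous L := L.continuous_of_finiteDimensional
    have h1 : Continuous (fun H : Matrix (Fin 2) (Fin 11) ℝ => H - X) := continuous_id.sub continuous_const
    have h2 : Continuous (fun H : Matrix (Fin 2) (Fin 11) ℝ => (L (H - X))ᵀ) := (hL.comp h1).matrix_transpose
    exact ((h1.matrix_mul h2).matrix_trace).add continuous_const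
  have cW1 : Continuous W1 := by
    have : W1 = fun x => Matrix.trace ((Fx x - (1 : ℝ) • Fst) * (L1 (Fx x - (1 : ℝ) • Fst))ᵀ) + 1 / 100 := by
      funext x; exact (eq1 (Fx x)).symm
    rw [this]; exact (cTr L1 _).comp cF
  have cW2 : Continuous W2 := by
    have : W2 = fun x => Matrix.trace ((Fx x - (-1 : ℝ) • Fst) * (L2 (Fx x - (-1 : ℝ) • Fst))ᵀ) + 1 / 100 := by
      funext x; exact (eq2 (Fx x)).symm
    rw [this]; exact (cTr L2 _).comp cF
  let A : Set (Fin 2 → ℝ) := {x | W1 x ≤ W2 x}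
  have hAm : MeasurableSet A := (isClosed_le cW1 cW2).measurableSet
  have hFper : ∀ (x : Fin 2 → ℝ) (z : Fin 2 → ℤ), Fx (x + fun i => (z i : ℝ)) = Fx x := by
    intro x z
    have h1 : fderiv ℝ u (x + fun i => (z i : ℝ)) = fderiv ℝ u x := by
      have h2 : (fun y => u (y + fun i => (z i : ℝ))) = u := funext fun y => hper y z
      have h3 := fderiv_comp_add_right (𝕜 := ℝ) (f := u) (x := x) (fun i => (z i : ℝ))
      rw [h2] at h3
      exact h3.symm
    simp only [Fx, h1]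
  let φ : (Fin 2 → ℝ) → Fin k := fun x => if x ∈ A then i0 else i1
  have hφm : Measurable φ := Measurable.ite hAm measurable_const measurable_const
  have hφp : IsPhase φ := by
    refine ⟨hφm, fun x z => ?_⟩
    have : (x + fun i => (z i : ℝ)) ∈ A ↔ x ∈ A := by
      simp only [A, Set.mem_setOf_eq, W1, W2, hFper x z]
    simp only [φ, this]
  obtain ⟨Ks, hKs⟩ := exists_effA K hKpd φ hφm
  refine ⟨K, ?_, hKpd, Ks, subset_closure ⟨φ, hφp, hKs⟩, ?_⟩
  · -- the phases are different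
    let X1 : Mt 11 := fun p => Fst p.1 p.2
    have hX1 : Mx X1 = Fst := rfl
    have v1 : en M1 X1 = 1 / 100 := by
      rw [e1, hX1, one_smul, sub_self, Matrix.zero_mul, Matrix.trace_zero, zero_add]
    have v2 : 1 / 100 < en M2 X1 := by
      rw [e2, hX1]
      have h2 : Fst - (-1 : ℝ) • Fst ≠ 0 := by
        intro h
        have h3 : (2 : ℝ) • Fst = 0 := by
          rw [← h, two_smul, neg_one_smul, sub_neg_eq_add]
        rcases smul_eq_zero.1 h3 with h4 | h4
        · norm_num at h4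
        · exact Fst_ne h4
      have h3 := pd2 _ h2
      linarith
    have hne : ∀ i j : Fin k, (i : ℕ) = 0 → (j : ℕ) ≠ 0 → K i ≠ K j := by
      intro i j hi hj h
      have h1 := congrArg (fun M => en M X1) h
      simp only [hK0 i hi, hKi j hj, en_add_smul_one] at h1
      have := mul_nonneg (hci j hj) (hnn X1)
      linarith
    intro i j hij
    by_cases hi : (i : ℕ) = 0
    · by_cases hj : (j : ℕ) = 0
      · exact Fin.ext (hi.trans hj.symm)
      · exact absurd hij (hne i j hi hj)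
    · by_cases hj : (j : ℕ) = 0
      · exact absurd hij.symm (hne j i hj hi)
      · rw [hKi i hi, hKi j hj] at hij
        have h1 := add_left_cancel hij
        have h2 := congrFun (congrFun h1 (Sum.inr ())) (Sum.inr ())
        simp only [Matrix.smul_apply, Matrix.one_apply_eq, smul_eq_mul, mul_one] at h2
        have h3 : ((i : ℕ) : ℝ) = ((j : ℕ) : ℝ) := by linarith
        exact Fin.ext (by exact_mod_cast h3)
  · intro hmem
    have h1 := closure_lower K g hgc hgK Ks hmem F00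
    have h2 : 208 / 243 ≤ g F00 := by
      simp only [g]
      rw [Mx_F00, pp_F0m, ss_F0m]
      exact JR11.GG_val KA KB
    have h3 := (hKs.2 F00).1 ⟨u, ⟨hu, hper⟩, rfl⟩
    have hpt : ∀ x, en (K (φ x)) (F00 + grad u x) = min (W1 x) (W2 x) := by
      intro x
      have hM : Mx (F00 + grad u x) = Fx x := rfl
      by_cases hx : x ∈ A
      · have : φ x = i0 := by simp [φ, hx]
        rw [this, hKi0, e1, hM, eq1, min_eq_left hx]
      · have : φ x = i1 := by simp [φ, hx]
        rw [this, hKi1, e2, hM, eq2, min_eq_right (not_le.1 hx).le]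
    rw [integral_congr_ae (Filter.Eventually.of_forall hpt)] at h3
    have h4 : ∫ x in cell, min (W1 x) (W2 x) ≤ 4 / 5 := hint
    norm_num at h2
    linarith

theorem nK_le (k : ℕ) (hk : 2 ≤ k) : nK k ≤ 11 := by
  obtain ⟨K, -, hK, Ks, h1, h2⟩ := k_phase_gapA k hk
  refine sInf_le ⟨11, by norm_num, rfl, K, hK, fun h => ?_⟩
  exact h2 (h ▸ h1)

end Pool.Agent.Y308.AK
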