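import Pool.Agent.Y308.AK.Defs

set_option autoImplicit false
open MeasureTheory Matrix

namespace Pool.Agent.Y308.AK

open GClosure

/-- a `2 × 11` matrix from its entries -/
def Mx (F : Mt 11) : Matrix (Fin 2) (Fin 11) ℝ := Matrix.of fun i j => F (i, j)

/-- auxiliary linear map -/
noncomputable def wT (X : Matrix (Fin 2) (Fin 11) ℝ) :
    (Jx 11 → ℝ) →ₗ[ℝ] Matrix (Fin 2) (Fin 11) ℝ where
  toFun c := Matrix.of (fun i j => c (Sum.inl (i, j))) - c (Sum.inr ()) • X
  map_add' c c' := by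
    ext i j
    simp
    ring
  map_smul' a c := by
    ext i j
    simp
    ring

/-- auxiliary bilinear form -/
noncomputable def wB (L : Matrix (Fin 2) (Fin 11) ℝ →ₗ[ℝ] Matrix (Fin 2) (Fin 11) ℝ)
    (X : Matrix (Fin 2) (Fin 11) ℝ) : (Jx 11 → ℝ) →ₗ[ℝ] (Jx 11 → ℝ) →ₗ[ℝ] ℝ :=
  LinearMap.mk₂ ℝ (fun c c' => Matrix.trace (wT X c * (L (wT X c'))ᵀ) +
      1 / 100 * (c (Sum.inr ()) * c' (Sum.inr ())))
    (by
      intro a b c
      simp only [map_add, Matrix.add_mul, Matrix.trace_add, Pi.add_apply]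
      ring)
    (by
      intro c a b
      simp only [map_smul, Matrix.smul_mul, Matrix.trace_smul, Pi.smul_apply, smul_eq_mul]
      ring)
    (by
      intro a b c
      simp only [map_add, Matrix.transpose_add, Matrix.mul_add, Matrix.trace_add, Pi.add_apply]
      ring)
    (by
      intro c a b
      simp only [map_smul, Matrix.transpose_smul, Matrix.mul_smul, Matrix.trace_smul,
        Pi.smul_apply, smul_eq_mul]
      ring)

theorem exists_tensorA (L : Matrix (Fin 2) (Fin 11) ℝ →ₗ[ℝ] Matrix (Fin 2) (Fin 11) ℝ)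
    (hs : ∀ A B : Matrix (Fin 2) (Fin 11) ℝ, Matrix.trace (A * (L B)ᵀ) = Matrix.trace (L A * Bᵀ))
    (hp : ∀ A : Matrix (Fin 2) (Fin 11) ℝ, A ≠ 0 → 0 < Matrix.trace (A * (L A)ᵀ))
    (X : Matrix (Fin 2) (Fin 11) ℝ) :
    ∃ M : ATens 11, M.PosDef ∧ ∀ F : Mt 11, en M F =
      Matrix.trace ((Mx F - X) * (L (Mx F - X))ᵀ) + 1 / 100 := by
  have hB : ∀ c c' : Jx 11 → ℝ, wB L X c c' = Matrix.trace (wT X c * (L (wT X c'))ᵀ) +
      1 / 100 * (c (Sum.inr ()) * c' (Sum.inr ())) :=
    fun c c' => rfl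
  have hBsymm : ∀ c c' : Jx 11 → ℝ, wB L X c c' = wB L X c' c := by
    intro c c'
    rw [hB, hB, hs, ← Matrix.trace_transpose, Matrix.transpose_mul, Matrix.transpose_transpose]
    ring
  have hM : ∀ c c' : Jx 11 → ℝ, c ⬝ᵥ (LinearMap.toMatrix₂' ℝ (wB L X) *ᵥ c') = wB L X c c' := by
    intro c c'
    rw [← Matrix.toLinearMap₂'_apply', Matrix.toLinearMap₂'_toMatrix']
  refine ⟨LinearMap.toMatrix₂' ℝ (wB L X), ?_, ?_⟩
  · rw [Matrix.posDef_iff_dotProduct_mulVec]
    refine ⟨?_, ?_⟩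
    · ext p q
      rw [Matrix.conjTranspose_apply, star_trivial, LinearMap.toMatrix₂'_apply,
        LinearMap.toMatrix₂'_apply]
      exact hBsymm _ _
    · intro c hc
      rw [star_trivial, hM, hB]
      by_cases h0 : wT X c = 0
      · rw [h0]
        simp only [map_zero, Matrix.zero_mul, Matrix.trace_zero, zero_add]
        by_contra h
        push Not at h
        have h2 : c (Sum.inr ()) = 0 := by nlinarith [sq_nonneg (c (Sum.inr ()))]
        apply hc
        have h4 : Matrix.of (fun i j => c (Sum.inl (i, j))) - c (Sum.inr ()) • X = 0 := h0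
        rw [h2, zero_smul, sub_zero] at h4
        funext p
        rcases p with ⟨i, j⟩ | ⟨⟩
        · exact congrFun (congrFun h4 i) j
        · exact h2
      · have h1 := hp _ h0
        have h2 := mul_self_nonneg (c (Sum.inr ()))
        linarith
  · intro F
    unfold en
    rw [hM, hB]
    have e : wT X (vec F 1) = Mx F - X := by
      show Matrix.of (fun i j => vec F 1 (Sum.inl (i, j))) - vec F 1 (Sum.inr ()) • X = _
      have e2 : vec F 1 (Sum.inr ()) = 1 := rfl
      rw [e2, one_smul]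
      rfl
    have e3 : vec F 1 (Sum.inr ()) = 1 := rfl
    rw [e, e3]
    ring

end Pool.Agent.Y308.AK
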